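import Mathlib
import Pool.Agent.W223.CV.Stms

set_option autoImplicit false
set_option linter.unusedVariables false

namespace Pool.Agent.W930.CV

open Polynomial IsDedekindDomain NumberField Pool.Agent.W223.CV

variable {L : Type} [Field L] [NumberField L]

lemma exists_prime_mem (I : Ideal (𝓞 L)) (hI : I.IsPrime) :
    ∀ n : ℕ, n ≠ 0 → (n : 𝓞 L) ∈ I → ∃ p : ℕ, p.Prime ∧ p ∣ n ∧ (p : 𝓞 L) ∈ I := by
  intro n
  induction n using Nat.strong_induction_on with
  | _ n ih =>
    intro hn hmem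
    rcases Nat.lt_or_ge n 2 with h | h
    · have h1 : n = 1 := by omega
      subst h1
      rw [Nat.cast_one] at hmem
      exact absurd ((Ideal.eq_top_iff_one I).2 hmem) hI.ne_top
    · have hp := Nat.minFac_prime (show n ≠ 1 by omega)
      obtain ⟨k, hk⟩ := Nat.minFac_dvd n
      have hk0 : k ≠ 0 := by
        rintro rfl
        rw [mul_zero] at hk
        exact hn hk
      have hkn : k < n := by
        rw [hk]
        have := hp.two_le
        have : 0 < k := Nat.pos_of_ne_zero hk0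
        nlinarith
      rw [hk, Nat.cast_mul] at hmem
      rcases hI.mem_or_mem hmem with h1 | h1
      · exact ⟨_, hp, Nat.minFac_dvd n, h1⟩
      · obtain ⟨p, h2, h3, h4⟩ := ih k hkn hk0 h1
        exact ⟨p, h2, h3.trans ⟨n.minFac, by rw [mul_comm]; exact hk⟩, h4⟩

lemma val_int_le (v : HeightOneSpectrum (𝓞 L)) (n : ℤ) : v.valuation L (n : L) ≤ 1 := by
  have h : v.valuation L (algebraMap (𝓞 L) L (n : 𝓞 L)) ≤ 1 := v.valuation_le_one (K := L) _
  rwa [map_intCast] at h

lemma val_int_eq (v : HeightOneSpectrum (𝓞 L)) (S : Finset ℕ)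
    (hv : ∀ p ∈ S, (p : 𝓞 L) ∉ v.asIdeal) (n : ℤ) (hn : n ≠ 0)
    (h : ∀ p : ℕ, p.Prime → (p : ℤ) ∣ n → p ∈ S) : v.valuation L (n : L) = 1 := by
  refine le_antisymm (val_int_le v n) ?_
  by_contra hlt
  push Not at hlt
  have h1 : (n : 𝓞 L) ∈ v.asIdeal := by
    rw [← v.valuation_lt_one_iff_mem (K := L)]
    change v.valuation L (algebraMap (𝓞 L) L (n : 𝓞 L)) < 1
    rw [map_intCast]
    exact hlt
  have h2 : ((n.natAbs : ℕ) : 𝓞 L) ∈ v.asIdeal := by
    rcases Int.natAbs_eq n with h3 | h3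
    · rw [h3, Int.cast_natCast] at h1
      exact h1
    · rw [h3, Int.cast_neg, Int.cast_natCast] at h1
      exact (Ideal.neg_mem_iff _).1 h1
  obtain ⟨p, hp, hpn, hpI⟩ := exists_prime_mem v.asIdeal v.isPrime n.natAbs
    (Int.natAbs_ne_zero.2 hn) h2
  exact hv p (h p hp (Int.natCast_dvd.2 hpn)) hpI

theorem t : StmtKUM := by
  classical
  intro L _ _ q S P x y m a e hm hsum ha0 ha hdet hdetS hz hy v hv j hj
  set V := v.valuation L with hV
  set μ := max (V x) 1 with hμ
  have hμ1 : (1 : WithZero (Multiplicative ℤ)) ≤ μ := le_max_right _ _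
  have hμ0 : μ ≠ 0 := by
    intro h0
    rw [h0] at hμ1
    exact absurd hμ1 (by simp)
  -- the other local heights vanish
  have hle : ∀ (n : ℤ) (z : L), V ((n : L) * z) ≤ V z := by
    intro n z
    rw [map_mul]
    calc V (n : L) * V z ≤ 1 * V z := mul_le_mul_left (val_int_le v n) _
      _ = V z := one_mul _
  have hother : ∀ i, i ≠ j → V (lin (P i) x) = μ := by
    intro i hij
    have hup : V (lin (P i) x) ≤ μ := by
      unfold lin
      refine (Valuation.map_sub _ _ _).trans ?_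
      refine max_le ((val_int_le v _).trans hμ1) ?_
      rw [mul_comm]
      exact (hle _ _).trans (le_max_left _ _)
    by_contra hne
    have hlt : V (lin (P i) x) < μ := lt_of_le_of_ne hup hne
    have hM : max (V (lin (P i) x)) (V (lin (P j) x)) < μ := max_lt hlt hj
    have hd1 : V (((P i).1 * (P j).2 - (P j).1 * (P i).2 : ℤ) : L) = 1 :=
      val_int_eq v S hv _ (hdet i j hij) (hdetS i j hij)
    have e1 : (((P i).1 * (P j).2 - (P j).1 * (P i).2 : ℤ) : L) =
        ((P j).2 : L) * lin (P i) x - ((P i).2 : L) * lin (P j) x := by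
      unfold lin
      push_cast
      ring
    have e2 : x * (((P i).1 * (P j).2 - (P j).1 * (P i).2 : ℤ) : L) =
        ((P j).1 : L) * lin (P i) x - ((P i).1 : L) * lin (P j) x := by
      unfold lin
      push_cast
      ring
    have h1 : (1 : WithZero (Multiplicative ℤ)) < μ := by
      rw [← hd1, e1]
      refine lt_of_le_of_lt (Valuation.map_sub _ _ _) ?_
      exact lt_of_le_of_lt (max_le_max (hle _ _) (hle _ _)) hM
    have h2 : V x < μ := by
      have : V (x * (((P i).1 * (P j).2 - (P j).1 * (P i).2 : ℤ) : L)) = V x := by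
        rw [map_mul, hd1, mul_one]
      rw [← this, e2]
      refine lt_of_le_of_lt (Valuation.map_sub _ _ _) ?_
      exact lt_of_le_of_lt (max_le_max (hle _ _) (hle _ _)) hM
    have h3 : μ < μ := by
      conv_lhs => rw [hμ]
      exact max_lt h2 h1
    exact lt_irrefl _ h3
  have hVz : V (lin (P j) x) ≠ 0 := (Valuation.ne_zero_iff _).2 (hz j)
  -- the exponent
  have hlog : WithZero.log (V (lin (P j) x)) ≤ WithZero.log μ :=
    (WithZero.log_le_log hVz hμ0).2 hj.le
  obtain ⟨n, hn⟩ := Int.le.dest hlog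
  have hexp : V (lin (P j) x) = μ * WithZero.exp (-(n : ℤ)) := by
    rw [← WithZero.exp_log hVz]
    conv_rhs => rw [← WithZero.exp_log hμ0]
    rw [← WithZero.exp_add, WithZero.exp_inj]
    linarith
  refine ⟨n, hexp, ?_⟩
  -- take logarithms
  have hy0 : y ≠ 0 := by
    rintro rfl
    rw [zero_pow (by omega)] at hy
    have : (a : L) * ∏ j, lin (P j) x ^ e j ≠ 0 :=
      mul_ne_zero (Int.cast_ne_zero.2 ha0) (Finset.prod_ne_zero_iff.2 fun i _ => pow_ne_zero _ (hz i))
    exact this hy.symm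
  have hva : V (a : L) = 1 := val_int_eq v S hv a ha0 ha
  have h1 : V y ^ m = ∏ i, V (lin (P i) x) ^ e i := by
    rw [← map_pow, hy, map_mul, hva, one_mul, map_prod]
    exact Finset.prod_congr rfl fun i _ => map_pow _ _ _
  have h2 : ∏ i, V (lin (P i) x) ^ e i = μ ^ (∑ i, e i) * WithZero.exp (-(n : ℤ)) ^ e j := by
    rw [← Finset.mul_prod_erase _ _ (Finset.mem_univ j),
      ← Finset.add_sum_erase _ _ (Finset.mem_univ j), pow_add, ← Finset.prod_pow_eq_pow_sum]
    have : ∏ i ∈ Finset.univ.erase j, V (lin (P i) x) ^ e i =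
        ∏ i ∈ Finset.univ.erase j, μ ^ e i := by
      refine Finset.prod_congr rfl fun i hi => ?_
      rw [hother i (Finset.ne_of_mem_erase hi)]
    rw [this, hexp, mul_pow]
    exact mul_right_comm _ _ _
  rw [h2] at h1
  have hVy : V y ≠ 0 := (Valuation.ne_zero_iff _).2 hy0
  have h3 := congrArg WithZero.log h1
  rw [WithZero.log_pow, WithZero.log_mul (pow_ne_zero _ hμ0) (pow_ne_zero _ WithZero.exp_ne_zero),
    WithZero.log_pow, WithZero.log_pow, WithZero.log_exp] at h3
  simp only [nsmul_eq_mul] at h3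
  have h4 : (m : ℤ) ∣ (n * e j : ℕ) := by
    obtain ⟨s, hs⟩ := hsum
    refine ⟨(s : ℤ) * WithZero.log μ - WithZero.log (V y), ?_⟩
    rw [hs] at h3
    push_cast at h3 ⊢
    linarith
  have h5 : m ∣ n * e j := Int.natCast_dvd_natCast.1 h4
  have hg : 0 < Nat.gcd m (e j) := Nat.gcd_pos_of_pos_left _ (by omega)
  have h6 : m / Nat.gcd m (e j) ∣ n * (e j / Nat.gcd m (e j)) := by
    apply Nat.dvd_of_mul_dvd_mul_right hg
    rw [Nat.div_mul_cancel (Nat.gcd_dvd_left _ _), mul_assoc,
      Nat.div_mul_cancel (Nat.gcd_dvd_right _ _)]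
    exact h5
  exact (Nat.coprime_div_gcd_div_gcd hg).dvd_of_dvd_mul_right h6

end Pool.Agent.W930.CV
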